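import Mathlib

set_option autoImplicit false

namespace Pool.Agent.Results.MP_903b9e_co.MobileLattice

open SimpleGraph

/-- The `k`-fold Cartesian power of the two-way infinite path: vertex set `ℤ^k`, two vertices
adjacent when they differ by exactly `1` in exactly one coordinate. -/
def latticeGraph (k : ℕ) : SimpleGraph (Fin k → ℤ) where
  Adj x y := ∃ i, |x i - y i| = 1 ∧ ∀ j, j ≠ i → x j = y j
  symm := ⟨fun x y ⟨i, h1, h2⟩ => ⟨i, by rw [abs_sub_comm]; exact h1, fun j hj => (h2 j hj).symm⟩⟩
  loopless := ⟨fun x ⟨i, h1, _⟩ => by simp at h1⟩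

/-- `S` is in general position: no three distinct vertices of `S` lie on a common shortest path
(a walk whose length is the distance of its ends). -/
def GenPos {V : Type} (G : SimpleGraph V) (S : Set V) : Prop :=
  ∀ a ∈ S, ∀ b ∈ S, ∀ c ∈ S, a ≠ b → b ≠ c → a ≠ c →
    ¬ ∃ (u v : V) (p : G.Walk u v), p.length = G.dist u v ∧
        a ∈ p.support ∧ b ∈ p.support ∧ c ∈ p.support

/-- A legal move from the occupied set `S` to the occupied set `T`: one robot moves from a vertex
`u ∈ S` to an adjacent unoccupied vertex `v`, and the new set is in general position. -/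
def LegalMove {V : Type} (G : SimpleGraph V) (S T : Set V) : Prop :=
  ∃ u ∈ S, ∃ v, v ∉ S ∧ G.Adj u v ∧ T = insert v (S \ {u}) ∧ GenPos G T

/-- `S` is a mobile general position set: it is in general position and there is a (finite or
infinite) sequence of legal moves from `S` during which each vertex is occupied at some time.
A finite sequence of moves is encoded as a sequence that is eventually constant. -/
def IsMobile {V : Type} (G : SimpleGraph V) (S : Set V) : Prop :=
  GenPos G S ∧ ∃ f : ℕ → Set V, f 0 = S ∧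
    (∀ n, f (n + 1) = f n ∨ LegalMove G (f n) (f (n + 1))) ∧ ∀ v, ∃ n, v ∈ f n

/-! ### the distance -/

/-- the `ℓ₁` distance. -/
def l1 {k : ℕ} (x y : Fin k → ℤ) : ℕ := ∑ i, (x i - y i).natAbs

theorem l1_triangle {k : ℕ} (x y z : Fin k → ℤ) : l1 x z ≤ l1 x y + l1 y z := by
  unfold l1
  rw [← Finset.sum_add_distrib]
  exact Finset.sum_le_sum fun i _ => by omega

theorem l1_adj {k : ℕ} {x y : Fin k → ℤ} (h : (latticeGraph k).Adj x y) : l1 x y = 1 := by
  obtain ⟨i, h1, h2⟩ := h
  unfold l1
  rw [Finset.sum_eq_single i]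
  · rw [Int.abs_eq_natAbs] at h1
    exact_mod_cast h1
  · intro j _ hj
    rw [h2 j hj]; simp
  · intro h; exact absurd (Finset.mem_univ i) h

theorem l1_le_length {k : ℕ} {x y : Fin k → ℤ} (p : (latticeGraph k).Walk x y) :
    l1 x y ≤ p.length := by
  induction p with
  | nil => simp [l1]
  | cons h p ih =>
    rw [Walk.length_cons]
    exact (l1_triangle _ _ _).trans ((Nat.add_le_add (l1_adj h).le ih).trans (Nat.add_comm _ _).le)

theorem exists_walk {k : ℕ} (m : ℕ) (x y : Fin k → ℤ) (h : l1 x y = m) :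
    ∃ p : (latticeGraph k).Walk x y, p.length = m := by
  induction m generalizing x with
  | zero =>
    have : x = y := by
      funext i
      have := Finset.sum_eq_zero_iff.1 h i (Finset.mem_univ i)
      omega
    subst this
    exact ⟨Walk.nil, rfl⟩
  | succ m ih =>
    have : ∃ i, x i ≠ y i := by
      by_contra hcon
      push Not at hcon
      have : l1 x y = 0 := Finset.sum_eq_zero fun i _ => by rw [hcon i]; simp
      omega
    obtain ⟨i, hi⟩ := this
    set s : ℤ := if x i < y i then 1 else -1 with hs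
    have hs1 : |x i - (x i + s)| = 1 := by
      rw [hs]; split_ifs <;> simp
    have hadj : (latticeGraph k).Adj x (Function.update x i (x i + s)) := by
      refine ⟨i, ?_, ?_⟩
      · rw [Function.update_self]; exact hs1
      · intro j hj; rw [Function.update_of_ne hj]
    have hl : l1 (Function.update x i (x i + s)) y = m := by
      unfold l1 at h ⊢
      rw [← Finset.add_sum_erase _ _ (Finset.mem_univ i)] at h ⊢
      have : ∑ j ∈ Finset.univ.erase i, (Function.update x i (x i + s) j - y j).natAbs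
          = ∑ j ∈ Finset.univ.erase i, (x j - y j).natAbs := by
        refine Finset.sum_congr rfl fun j hj => ?_
        rw [Function.update_of_ne (Finset.ne_of_mem_erase hj)]
      rw [this, Function.update_self]
      rw [hs]
      split_ifs <;> omega
    obtain ⟨p, hp⟩ := ih _ hl
    exact ⟨Walk.cons hadj p, by rw [Walk.length_cons, hp]⟩

theorem dist_eq {k : ℕ} (x y : Fin k → ℤ) : (latticeGraph k).dist x y = l1 x y := by
  obtain ⟨p, hp⟩ := exists_walk (l1 x y) x y rfl
  apply le_antisymm
  · rw [← hp]; exact SimpleGraph.dist_le p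
  · obtain ⟨q, hq⟩ := (Walk.reachable p).exists_walk_length_eq_dist
    rw [← hq]; exact l1_le_length q

/-- `b` is between `a` and `c` in each coordinate. -/
def Btw {k : ℕ} (a b c : Fin k → ℤ) : Prop :=
  ∀ i, (a i ≤ b i ∧ b i ≤ c i) ∨ (c i ≤ b i ∧ b i ≤ a i)

theorem btw_iff {k : ℕ} (a b c : Fin k → ℤ) : Btw a b c ↔ l1 a b + l1 b c = l1 a c := by
  unfold Btw l1
  rw [← Finset.sum_add_distrib]
  constructor
  · intro h
    exact Finset.sum_congr rfl fun i _ => by rcases h i with h | h <;> omega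
  · intro h i
    have := (Finset.sum_eq_sum_iff_of_le (s := Finset.univ)
      (f := fun i => (a i - c i).natAbs)
      (g := fun i => (a i - b i).natAbs + (b i - c i).natAbs) (fun i _ => by omega)).1 h.symm i
      (Finset.mem_univ i)
    omega

theorem l1_comm {k : ℕ} (x y : Fin k → ℤ) : l1 x y = l1 y x :=
  Finset.sum_congr rfl fun i _ => by omega

theorem l1_self {k : ℕ} (x : Fin k → ℤ) : l1 x x = 0 :=
  Finset.sum_eq_zero fun i _ => by simp

theorem l1_getVert {k : ℕ} {u v : Fin k → ℤ} (p : (latticeGraph k).Walk u v) (i m : ℕ) :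
    l1 (p.getVert i) (p.getVert (i + m)) ≤ m := by
  induction m with
  | zero => rw [Nat.add_zero, l1_self]
  | succ m ih =>
    have h1 : l1 (p.getVert (i + m)) (p.getVert (i + (m + 1))) ≤ 1 := by
      rcases Nat.lt_or_ge (i + m) p.length with h | h
      · exact (l1_adj (p.adj_getVert_succ h)).le
      · rw [p.getVert_of_length_le h, p.getVert_of_length_le (by omega), l1_self]
        exact Nat.zero_le _
    exact (l1_triangle _ _ _).trans (Nat.add_le_add ih h1)

theorem l1_getVert' {k : ℕ} {u v : Fin k → ℤ} (p : (latticeGraph k).Walk u v)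
    (hp : p.length = (latticeGraph k).dist u v) {i j : ℕ} (hij : i ≤ j) (hj : j ≤ p.length) :
    l1 (p.getVert i) (p.getVert j) = j - i := by
  rw [dist_eq] at hp
  have h1 := l1_getVert p 0 i
  have h2 := l1_getVert p i (j - i)
  have h3 := l1_getVert p j (p.length - j)
  rw [Nat.zero_add, p.getVert_zero] at h1
  rw [Nat.add_sub_cancel' hij] at h2
  rw [Nat.add_sub_cancel' hj, p.getVert_length] at h3
  have h4 := l1_triangle u (p.getVert i) v
  have h5 := l1_triangle (p.getVert i) (p.getVert j) v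
  omega

/-- general position in the lattice graph, in coordinates. -/
theorem genPos_iff {k : ℕ} (S : Set (Fin k → ℤ)) : GenPos (latticeGraph k) S ↔
    ∀ a ∈ S, ∀ b ∈ S, ∀ c ∈ S, a ≠ b → b ≠ c → a ≠ c → ¬ Btw a b c := by
  constructor
  · intro h a ha b hb c hc hab hbc hac hB
    refine h a ha b hb c hc hab hbc hac ?_
    obtain ⟨p, hp⟩ := exists_walk _ a b rfl
    obtain ⟨q, hq⟩ := exists_walk _ b c rfl
    refine ⟨a, c, p.append q, ?_, ?_, ?_, ?_⟩
    · rw [Walk.length_append, hp, hq, dist_eq]; exact (btw_iff a b c).1 hB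
    · exact Walk.start_mem_support _
    · rw [Walk.mem_support_append_iff]; exact Or.inl (Walk.end_mem_support _)
    · exact Walk.end_mem_support _
  · rintro h a ha b hb c hc hab hbc hac ⟨u, v, p, hp, hau, hbu, hcu⟩
    obtain ⟨i, rfl, hi⟩ := Walk.mem_support_iff_exists_getVert.1 hau
    obtain ⟨j, rfl, hj⟩ := Walk.mem_support_iff_exists_getVert.1 hbu
    obtain ⟨l, rfl, hl⟩ := Walk.mem_support_iff_exists_getVert.1 hcu
    have key : ∀ i j l, i ≤ j → j ≤ l → l ≤ p.length →
        Btw (p.getVert i) (p.getVert j) (p.getVert l) := by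
      intro i j l h1 h2 h3
      rw [btw_iff, l1_getVert' p hp h1 (by omega), l1_getVert' p hp h2 h3,
        l1_getVert' p hp (h1.trans h2) h3]
      omega
    rcases le_total i j with h1 | h1 <;> rcases le_total j l with h2 | h2 <;>
      rcases le_total i l with h3 | h3
    · exact h _ ha _ hb _ hc hab hbc hac (key i j l h1 h2 hl)
    · exact h _ ha _ hb _ hc hab hbc hac (key i j l h1 h2 hl)
    · exact h _ ha _ hc _ hb hac hbc.symm hab (key i l j h3 h2 hj)
    · exact h _ hc _ ha _ hb hac.symm hab hbc.symm (key l i j h3 h1 hj)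
    · exact h _ hb _ ha _ hc hab.symm hac hbc (key j i l h1 h3 hl)
    · exact h _ hb _ hc _ ha hbc hac.symm hab.symm (key j l i h2 h3 hi)
    · exact h _ hc _ hb _ ha hbc.symm hab.symm hac.symm (key l j i h2 h1 hi)
    · exact h _ hc _ hb _ ha hbc.symm hab.symm hac.symm (key l j i h2 h1 hi)

/-! ### the upper bound -/

/-- the sign-vector orders. -/
def sle {n : ℕ} (e : Fin n → Bool) (a b : Fin (n + 1) → ℤ) : Prop :=
  a 0 ≤ b 0 ∧ ∀ j, if e j = true then a j.succ ≤ b j.succ else b j.succ ≤ a j.succ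

theorem sle_antisymm {n : ℕ} {e : Fin n → Bool} {a b : Fin (n + 1) → ℤ} (h1 : sle e a b)
    (h2 : sle e b a) : a = b := by
  funext i
  refine Fin.cases (le_antisymm h1.1 h2.1) (fun j => ?_) i
  have h3 := h1.2 j
  have h4 := h2.2 j
  split_ifs at h3 h4 <;> omega

theorem sle_btw {n : ℕ} {e : Fin n → Bool} {a b c : Fin (n + 1) → ℤ} (h1 : sle e a b)
    (h2 : sle e b c) : Btw a b c := by
  intro i
  refine Fin.cases (Or.inl ⟨h1.1, h2.1⟩) (fun j => ?_) i
  have h3 := h1.2 j
  have h4 := h2.2 j
  split_ifs at h3 h4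
  · exact Or.inl ⟨h3, h4⟩
  · exact Or.inr ⟨h4, h3⟩

theorem sle_total {n : ℕ} (a b : Fin (n + 1) → ℤ) :
    ∃ e : Fin n → Bool, sle e a b ∨ sle e b a := by
  rcases le_total (a 0) (b 0) with h | h
  · refine ⟨fun j => decide (a j.succ ≤ b j.succ), Or.inl ⟨h, fun j => ?_⟩⟩
    by_cases h' : a j.succ ≤ b j.succ
    · simp [h']
    · simp only [h', decide_false, Bool.false_eq_true, if_false]; omega
  · refine ⟨fun j => decide (b j.succ ≤ a j.succ), Or.inr ⟨h, fun j => ?_⟩⟩
    by_cases h' : b j.succ ≤ a j.succ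
    · simp [h']
    · simp only [h', decide_false, Bool.false_eq_true, if_false]; omega

theorem upper {n : ℕ} (S : Set (Fin (n + 1) → ℤ)) (h : GenPos (latticeGraph (n + 1)) S) :
    S.encard ≤ 2 ^ (2 ^ n) := by
  classical
  rw [genPos_iff] at h
  let F : S → ((Fin n → Bool) → Bool) := fun a e =>
    decide (∃ b ∈ S, b ≠ a.1 ∧ sle e b a.1)
  have hF : Function.Injective F := by
    have key : ∀ a b : S, a ≠ b → ∀ e, sle e a.1 b.1 → F a ≠ F b := by
      intro a b hab e he hF
      have h1 : F b e = true := by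
        simp only [F, decide_eq_true_eq]
        exact ⟨a.1, a.2, fun h => hab (Subtype.ext h), he⟩
      rw [← hF] at h1
      simp only [F, decide_eq_true_eq] at h1
      obtain ⟨c, hc, hca, hce⟩ := h1
      have hcb : c ≠ b.1 := by
        rintro rfl
        exact hca (sle_antisymm hce he)
      exact h c hc a.1 a.2 b.1 b.2 hca (fun h => hab (Subtype.ext h)) hcb (sle_btw hce he)
    intro a b hab
    by_contra hne
    obtain ⟨e, he | he⟩ := sle_total a.1 b.1
    · exact key a b hne e he hab
    · exact key b a (Ne.symm hne) e he hab.symm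
  have h1 : S.encard ≤ (Set.univ : Set ((Fin n → Bool) → Bool)).encard := by
    have := (Set.injOn_univ.2 hF).encard_image
    rw [Set.encard_univ] at this
    calc S.encard = ENat.card S := rfl
      _ = (F '' Set.univ).encard := this.symm
      _ ≤ _ := Set.encard_le_encard (Set.subset_univ _)
  refine h1.trans (le_of_eq ?_)
  rw [Set.encard_univ, ENat.card_eq_coe_fintype_card]
  simp


/-! ### the extremal configuration -/

/-- the sign of the sign vector `e` in coordinate `i` (always `1` in coordinate `0`). -/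
def sg {n : ℕ} (e : Fin n → Bool) : Fin (n + 1) → ℤ :=
  Fin.cons 1 fun j => if e j = true then 1 else -1

/-- a numbering of the sign vectors. -/
noncomputable def idx (n : ℕ) : (Fin n → Bool) ≃ Fin (Fintype.card (Fin n → Bool)) :=
  Fintype.equivFin _

/-- the point of the extremal configuration attached to `φ`. -/
noncomputable def pt {n : ℕ} (φ : (Fin n → Bool) → Bool) (i : Fin (n + 1)) : ℤ :=
  ∑ e : Fin n → Bool, sg e i * (if φ e = true then 1 else 0) * 2 ^ (idx n e : ℕ)

theorem geom_bound (g : ℕ → ℤ) (hg : ∀ j, |g j| ≤ 1) (J : ℕ) :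
    |∑ j ∈ Finset.range J, g j * 2 ^ j| < 2 ^ J := by
  induction J with
  | zero => simp
  | succ J ih =>
    rw [Finset.sum_range_succ, pow_succ]
    have h1 : |g J * 2 ^ J| ≤ 2 ^ J := by
      rw [abs_mul, abs_of_pos (by positivity : (0 : ℤ) < 2 ^ J)]
      calc |g J| * 2 ^ J ≤ 1 * 2 ^ J := by
            exact mul_le_mul_of_nonneg_right (hg J) (by positivity)
        _ = 2 ^ J := one_mul _
    calc _ ≤ |∑ j ∈ Finset.range J, g j * 2 ^ j| + |g J * 2 ^ J| := abs_add_le _ _
      _ < 2 ^ J + 2 ^ J := by linarith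
      _ = 2 ^ J * 2 := by ring

theorem sum_sign (M : ℕ) (g : ℕ → ℤ) (hg : ∀ j, |g j| ≤ 1) (J : ℕ) (hJ : J < M)
    (hz : ∀ j, J < j → g j = 0) :
    (g J = 1 → 0 < ∑ j ∈ Finset.range M, g j * 2 ^ j) ∧
    (g J = -1 → ∑ j ∈ Finset.range M, g j * 2 ^ j < 0) := by
  have h1 : ∑ j ∈ Finset.range M, g j * 2 ^ j = ∑ j ∈ Finset.range (J + 1), g j * 2 ^ j := by
    symm
    apply Finset.sum_subset
    · intro j hj
      rw [Finset.mem_range] at hj ⊢
      omega
    · intro j _ hj
      rw [Finset.mem_range] at hj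
      rw [hz j (by omega), zero_mul]
  rw [h1, Finset.sum_range_succ]
  have h2 := abs_lt.1 (geom_bound g hg J)
  constructor
  · intro h; rw [h]; linarith [h2.1]
  · intro h; rw [h]; linarith [h2.2]

theorem sg_eq {n : ℕ} (e : Fin n → Bool) (i : Fin (n + 1)) : sg e i = 1 ∨ sg e i = -1 := by
  refine Fin.cases (Or.inl rfl) (fun j => ?_) i
  simp only [sg, Fin.cons_succ]
  split_ifs
  · exact Or.inl rfl
  · exact Or.inr rfl

/-- the sign pattern of the difference of two points of the configuration, when `e` is the top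
difference. -/
theorem pattern_core {n : ℕ} (φ ψ : (Fin n → Bool) → Bool) (e : Fin n → Bool)
    (h0 : φ e = false) (h1 : ψ e = true)
    (htop : ∀ e', (idx n e : ℕ) < idx n e' → φ e' = ψ e') (i : Fin (n + 1)) :
    (sg e i = 1 → pt φ i < pt ψ i) ∧ (sg e i = -1 → pt ψ i < pt φ i) := by
  classical
  set M := Fintype.card (Fin n → Bool) with hM
  set g : ℕ → ℤ := fun j => if hj : j < M then
    sg ((idx n).symm ⟨j, hj⟩) i * ((if ψ ((idx n).symm ⟨j, hj⟩) = true then 1 else 0) -
      (if φ ((idx n).symm ⟨j, hj⟩) = true then 1 else 0)) else 0 with hg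
  have hgb : ∀ j, |g j| ≤ 1 := by
    intro j
    simp only [hg]
    by_cases hj : j < M
    · rw [dif_pos hj]
      split_ifs with h2 h3 h3 <;> rcases sg_eq ((idx n).symm ⟨j, hj⟩) i with h4 | h4 <;>
        simp [h4]
    · rw [dif_neg hj]; simp
  have hgz : ∀ j, (idx n e : ℕ) < j → g j = 0 := by
    intro j hj
    simp only [hg]
    by_cases hjM : j < M
    · rw [dif_pos hjM, htop ((idx n).symm ⟨j, hjM⟩) (by simpa using hj)]
      simp
    · rw [dif_neg hjM]
  have hsum : pt ψ i - pt φ i = ∑ j ∈ Finset.range M, g j * 2 ^ j := by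
    unfold pt
    rw [← Finset.sum_sub_distrib, ← Equiv.sum_comp (idx n).symm, Finset.sum_range]
    refine Finset.sum_congr rfl fun j _ => ?_
    simp only [hg, Fin.is_lt, dif_pos, Fin.eta, Equiv.apply_symm_apply]
    ring
  have hge : g (idx n e : ℕ) = sg e i := by
    simp only [hg]
    rw [dif_pos (Fin.is_lt (idx n e))]
    simp [h0, h1]
  have := sum_sign M g hgb (idx n e : ℕ) (Fin.is_lt _) hgz
  rw [hge, ← hsum] at this
  exact ⟨fun h => by linarith [this.1 h], fun h => by linarith [this.2 h]⟩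

/-- `φ` is below `ψ` with sign pattern `e`. -/
def Pat {n : ℕ} (e : Fin n → Bool) (φ ψ : (Fin n → Bool) → Bool) : Prop :=
  φ e = false ∧ ψ e = true ∧
    ∀ i, (sg e i = 1 → pt φ i < pt ψ i) ∧ (sg e i = -1 → pt ψ i < pt φ i)

theorem pattern {n : ℕ} (φ ψ : (Fin n → Bool) → Bool) (h : φ ≠ ψ) :
    ∃ e, Pat e φ ψ ∨ Pat e ψ φ := by
  classical
  set D : Finset (Fin n → Bool) := Finset.univ.filter fun e => φ e ≠ ψ e with hD
  have hne : D.Nonempty := by
    obtain ⟨e, he⟩ := Function.ne_iff.1 h
    exact ⟨e, by simp [hD, he]⟩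
  obtain ⟨e, heD, hmax⟩ := D.exists_max_image (fun e => (idx n e : ℕ)) hne
  have he : φ e ≠ ψ e := by simpa [hD] using heD
  have htop : ∀ e', (idx n e : ℕ) < idx n e' → φ e' = ψ e' := by
    intro e' h1
    by_contra h2
    have := hmax e' (by simp [hD, h2])
    omega
  refine ⟨e, ?_⟩
  cases h0 : φ e with
  | false =>
    have h1 : ψ e = true := by
      cases h1 : ψ e with
      | false => exact absurd (h0.trans h1.symm) he
      | true => rfl
    exact Or.inl ⟨h0, h1, pattern_core φ ψ e h0 h1 htop⟩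
  | true =>
    have h1 : ψ e = false := by
      cases h1 : ψ e with
      | true => exact absurd (h0.trans h1.symm) he
      | false => rfl
    exact Or.inr ⟨h1, h0, pattern_core ψ φ e h1 h0 fun e' h => (htop e' h).symm⟩

theorem pt_ne {n : ℕ} (φ ψ : (Fin n → Bool) → Bool) (h : φ ≠ ψ) (i : Fin (n + 1)) :
    pt φ i ≠ pt ψ i := by
  obtain ⟨e, ⟨-, -, H⟩ | ⟨-, -, H⟩⟩ := pattern φ ψ h
  · rcases sg_eq e i with h2 | h2
    · exact ((H i).1 h2).ne
    · exact ((H i).2 h2).ne'
  · rcases sg_eq e i with h2 | h2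
    · exact ((H i).1 h2).ne'
    · exact ((H i).2 h2).ne

/-- the sign vector of a pair is determined by its coordinate orders. -/
theorem pat_eq {n : ℕ} {e e' : Fin n → Bool} {φ ψ χ : (Fin n → Bool) → Bool} (h : Pat e φ ψ)
    (h' : Pat e' ψ χ) : ¬ (∀ i, (pt φ i < pt ψ i ∧ pt ψ i < pt χ i) ∨
      (pt χ i < pt ψ i ∧ pt ψ i < pt φ i)) := by
  intro H
  have hee : e = e' := by
    funext j
    have h1 := h.2.2 j.succ
    have h2 := h'.2.2 j.succ
    simp only [sg, Fin.cons_succ] at h1 h2
    cases hj : e j <;> cases hj' : e' j <;> simp only [hj, hj', if_true, Bool.false_eq_true,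
      if_false] at h1 h2 ⊢
    · exfalso
      have h3 := h1.2 trivial
      have h4 := h2.1 trivial
      rcases H j.succ with H | H <;> omega
    · exfalso
      have h3 := h1.1 trivial
      have h4 := h2.2 trivial
      rcases H j.succ with H | H <;> omega
  subst hee
  exact Bool.noConfusion (h.2.1.symm.trans h'.1)

theorem not_btw {n : ℕ} {φ ψ χ : (Fin n → Bool) → Bool} (h1 : φ ≠ ψ) (h2 : ψ ≠ χ) :
    ¬ (∀ i, (pt φ i < pt ψ i ∧ pt ψ i < pt χ i) ∨ (pt χ i < pt ψ i ∧ pt ψ i < pt φ i)) := by
  intro H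
  obtain ⟨e, he⟩ := pattern φ ψ h1
  obtain ⟨e', he'⟩ := pattern ψ χ h2
  have hs : ∀ e : Fin n → Bool, sg e 0 = 1 := fun _ => rfl
  rcases he with he | he <;> rcases he' with he' | he'
  · exact pat_eq he he' H
  · have h3 := (he.2.2 0).1 (hs e)
    have h4 := (he'.2.2 0).1 (hs e')
    rcases H 0 with H | H <;> omega
  · have h3 := (he.2.2 0).1 (hs e)
    have h4 := (he'.2.2 0).1 (hs e')
    rcases H 0 with H | H <;> omega
  · exact pat_eq he' he fun i => (H i).symm

/-- `p` has the same coordinate orders as the extremal configuration. -/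
def Good {n : ℕ} (p : ((Fin n → Bool) → Bool) → Fin (n + 1) → ℤ) : Prop :=
  ∀ i φ ψ, p φ i < p ψ i ↔ pt φ i < pt ψ i

theorem good_ne {n : ℕ} {p : ((Fin n → Bool) → Bool) → Fin (n + 1) → ℤ} (hp : Good p)
    {φ ψ : (Fin n → Bool) → Bool} (h : φ ≠ ψ) (i : Fin (n + 1)) : p φ i ≠ p ψ i := by
  rcases lt_or_gt_of_ne (pt_ne φ ψ h i) with h1 | h1
  · exact ((hp i φ ψ).2 h1).ne
  · exact ((hp i ψ φ).2 h1).ne'

theorem good_inj {n : ℕ} {p : ((Fin n → Bool) → Bool) → Fin (n + 1) → ℤ} (hp : Good p) :
    Function.Injective p := by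
  intro φ ψ h
  by_contra hne
  exact good_ne hp hne 0 (congrFun h 0)

theorem good_genPos {n : ℕ} {p : ((Fin n → Bool) → Bool) → Fin (n + 1) → ℤ} (hp : Good p) :
    GenPos (latticeGraph (n + 1)) (Set.range p) := by
  rw [genPos_iff]
  rintro _ ⟨φ, rfl⟩ _ ⟨ψ, rfl⟩ _ ⟨χ, rfl⟩ h1 h2 h3 H
  have h1' : φ ≠ ψ := fun h => h1 (by rw [h])
  have h2' : ψ ≠ χ := fun h => h2 (by rw [h])
  refine not_btw h1' h2' fun i => ?_
  have h4 := good_ne hp h1' i
  have h5 := good_ne hp h2' i
  rcases H i with ⟨h6, h7⟩ | ⟨h6, h7⟩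
  · exact Or.inl ⟨(hp i _ _).1 (lt_of_le_of_ne h6 h4), (hp i _ _).1 (lt_of_le_of_ne h7 h5)⟩
  · exact Or.inr ⟨(hp i _ _).1 (lt_of_le_of_ne h6 (Ne.symm h5)),
      (hp i _ _).1 (lt_of_le_of_ne h7 (Ne.symm h4))⟩

/-- one robot moves. -/
theorem good_move {n : ℕ} {p q : ((Fin n → Bool) → Bool) → Fin (n + 1) → ℤ} (hp : Good p)
    (hq : Good q) (φ : (Fin n → Bool) → Bool) (hadj : (latticeGraph (n + 1)).Adj (p φ) (q φ))
    (hother : ∀ ψ, ψ ≠ φ → q ψ = p ψ) :
    LegalMove (latticeGraph (n + 1)) (Set.range p) (Set.range q) := by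
  refine ⟨p φ, ⟨φ, rfl⟩, q φ, ?_, hadj, ?_, good_genPos hq⟩
  · rintro ⟨ψ, hψ⟩
    by_cases h : ψ = φ
    · subst h; exact hadj.ne hψ
    · rw [← hother ψ h] at hψ
      exact h (good_inj hq hψ)
  · ext x
    simp only [Set.mem_range, Set.mem_insert_iff, Set.mem_sdiff, Set.mem_singleton_iff]
    constructor
    · rintro ⟨ψ, rfl⟩
      by_cases h : ψ = φ
      · left; rw [h]
      · right
        rw [hother ψ h]
        exact ⟨⟨ψ, rfl⟩, fun h' => h (good_inj hp h')⟩
    · rintro (rfl | ⟨⟨ψ, rfl⟩, h⟩)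
      · exact ⟨φ, rfl⟩
      · have h' : ψ ≠ φ := fun h' => h (by rw [h'])
        exact ⟨ψ, hother ψ h'⟩

/-- the symmetric step relation. -/
def Step {n : ℕ} (S T : Set (Fin (n + 1) → ℤ)) : Prop :=
  GenPos (latticeGraph (n + 1)) S ∧ LegalMove (latticeGraph (n + 1)) S T

theorem step_symm {n : ℕ} : Std.Symm (Step (n := n)) := by
  refine ⟨?_⟩
  rintro S T ⟨hS, u, hu, v, hv, hadj, rfl, hT⟩
  refine ⟨hT, v, Set.mem_insert _ _, u, ?_, hadj.symm, ?_, hS⟩
  · rintro (h | h)
    · exact hadj.ne h
    · exact h.2 rfl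
  · ext x
    simp only [Set.mem_insert_iff, Set.mem_sdiff, Set.mem_singleton_iff]
    constructor
    · intro hx
      by_cases h : x = u
      · exact Or.inl h
      · exact Or.inr ⟨Or.inr ⟨hx, h⟩, fun h' => hv (h' ▸ hx)⟩
    · rintro (h | ⟨h | h, h'⟩)
      · rw [h]; exact hu
      · exact absurd h h'
      · exact h.1

/-- the configuration in which the robots with `i`-th coordinate at least `t` have moved one
step in direction `i`. -/
def shifted {n : ℕ} (p : ((Fin n → Bool) → Bool) → Fin (n + 1) → ℤ) (i : Fin (n + 1)) (t : ℤ) :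
    ((Fin n → Bool) → Bool) → Fin (n + 1) → ℤ :=
  fun φ => if t ≤ p φ i then Function.update (p φ) i (p φ i + 1) else p φ

theorem shifted_good {n : ℕ} {p : ((Fin n → Bool) → Bool) → Fin (n + 1) → ℤ} (hp : Good p)
    (i : Fin (n + 1)) (t : ℤ) : Good (shifted p i t) := by
  intro j φ ψ
  rw [← hp j φ ψ]
  unfold shifted
  by_cases hj : j = i
  · subst hj
    split_ifs <;> simp only [Function.update_self] <;> omega
  · split_ifs <;> simp only [Function.update_of_ne hj]

theorem shifted_step {n : ℕ} {p : ((Fin n → Bool) → Bool) → Fin (n + 1) → ℤ} (hp : Good p)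
    (i : Fin (n + 1)) (t : ℤ) :
    Relation.ReflTransGen Step (Set.range (shifted p i (t + 1))) (Set.range (shifted p i t)) := by
  by_cases h : ∃ φ, p φ i = t
  · obtain ⟨φ, hφ⟩ := h
    apply Relation.ReflTransGen.single
    refine ⟨good_genPos (shifted_good hp i _), good_move (shifted_good hp i _)
      (shifted_good hp i _) φ ?_ ?_⟩
    · refine ⟨i, ?_, ?_⟩
      · unfold shifted
        rw [if_neg (by omega), if_pos (by omega), Function.update_self]
        simp
      · intro j hj
        unfold shifted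
        rw [if_neg (by omega), if_pos (by omega), Function.update_of_ne hj]
    · intro ψ hψ
      have := good_ne hp hψ i
      unfold shifted
      by_cases h1 : t ≤ p ψ i
      · rw [if_pos h1, if_pos (by omega)]
      · rw [if_neg h1, if_neg (by omega)]
  · have : shifted p i (t + 1) = shifted p i t := by
      funext φ
      have : p φ i ≠ t := fun h' => h ⟨φ, h'⟩
      unfold shifted
      by_cases h1 : t ≤ p φ i
      · rw [if_pos h1, if_pos (by omega)]
      · rw [if_neg h1, if_neg (by omega)]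
    rw [this]

theorem translate_one {n : ℕ} {p : ((Fin n → Bool) → Bool) → Fin (n + 1) → ℤ} (hp : Good p)
    (i : Fin (n + 1)) :
    Relation.ReflTransGen Step (Set.range p)
      (Set.range fun φ => Function.update (p φ) i (p φ i + 1)) := by
  obtain ⟨B, hB⟩ : ∃ B : ℕ, ∀ φ, |p φ i| < B := by
    obtain ⟨B, hB⟩ := (Set.finite_range fun φ => |p φ i|).bddAbove
    refine ⟨B.toNat + 1, fun φ => ?_⟩
    have : |p φ i| ≤ B := hB ⟨φ, rfl⟩
    push_cast
    omega
  have key : ∀ m : ℕ, Relation.ReflTransGen Step (Set.range (shifted p i B))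
      (Set.range (shifted p i (B - m))) := by
    intro m
    induction m with
    | zero => simp only [Nat.cast_zero, sub_zero]; exact Relation.ReflTransGen.refl
    | succ m ih =>
      refine ih.trans ?_
      have := shifted_step hp i ((B : ℤ) - (m + 1 : ℕ))
      have h2 : (B : ℤ) - (m + 1 : ℕ) + 1 = B - m := by push_cast; ring
      rwa [h2] at this
  have h1 : shifted p i B = p := by
    funext φ
    unfold shifted
    have := abs_lt.1 (hB φ)
    rw [if_neg (by omega)]
  have h2 : shifted p i ((B : ℤ) - (2 * B : ℕ)) =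
      fun φ => Function.update (p φ) i (p φ i + 1) := by
    funext φ
    unfold shifted
    have := abs_lt.1 (hB φ)
    rw [if_pos (by push_cast; omega)]
  have := key (2 * B)
  rwa [h1, h2] at this

/-- the translate of a configuration. -/
def tr {n : ℕ} (p : ((Fin n → Bool) → Bool) → Fin (n + 1) → ℤ) (t : Fin (n + 1) → ℤ) :
    ((Fin n → Bool) → Bool) → Fin (n + 1) → ℤ := fun φ => p φ + t

theorem tr_good {n : ℕ} {p : ((Fin n → Bool) → Bool) → Fin (n + 1) → ℤ} (hp : Good p)
    (t : Fin (n + 1) → ℤ) : Good (tr p t) := by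
  intro i φ ψ
  rw [← hp i φ ψ]
  simp [tr]

theorem tr_adj {n : ℕ} {p : ((Fin n → Bool) → Bool) → Fin (n + 1) → ℤ} (hp : Good p)
    {s t : Fin (n + 1) → ℤ} (h : (latticeGraph (n + 1)).Adj s t) :
    Relation.ReflTransGen Step (Set.range (tr p s)) (Set.range (tr p t)) := by
  obtain ⟨i, h1, h2⟩ := h
  have key : ∀ s t : Fin (n + 1) → ℤ, t i = s i + 1 → (∀ j, j ≠ i → s j = t j) →
      Relation.ReflTransGen Step (Set.range (tr p s)) (Set.range (tr p t)) := by
    intro s t h3 h4
    have := translate_one (tr_good hp s) i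
    have h5 : (fun φ => Function.update (tr p s φ) i (tr p s φ i + 1)) = tr p t := by
      funext φ j
      by_cases hj : j = i
      · subst hj
        rw [Function.update_self]
        simp only [tr, Pi.add_apply]
        omega
      · rw [Function.update_of_ne hj]
        simp only [tr, Pi.add_apply, h4 j hj]
    rwa [h5] at this
  rcases abs_eq (zero_le_one) |>.1 h1 with h3 | h3
  · have := key t s (by omega) fun j hj => (h2 j hj).symm
    have hsym : Std.Symm (Step (n := n)) := step_symm
    exact (Relation.ReflTransGen.stdSymm).symm _ _ this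
  · exact key s t (by omega) h2

theorem tr_reach {n : ℕ} {p : ((Fin n → Bool) → Bool) → Fin (n + 1) → ℤ} (hp : Good p)
    (s t : Fin (n + 1) → ℤ) :
    Relation.ReflTransGen Step (Set.range (tr p s)) (Set.range (tr p t)) := by
  obtain ⟨w, -⟩ := exists_walk _ s t rfl
  induction w with
  | nil => exact Relation.ReflTransGen.refl
  | cons h w ih => exact (tr_adj hp h).trans ih

/-! ### concatenation of finite paths -/

theorem path_fn {α : Type} {R : α → α → Prop} {a b : α} (h : Relation.ReflTransGen R a b) :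
    ∃ (L : ℕ) (g : ℕ → α), g 0 = a ∧ g L = b ∧ ∀ j < L, R (g j) (g (j + 1)) := by
  induction h with
  | refl => exact ⟨0, fun _ => a, rfl, rfl, fun j hj => absurd hj (Nat.not_lt_zero j)⟩
  | @tail b c _ hbc ih =>
    obtain ⟨L, g, h0, hL, hs⟩ := ih
    refine ⟨L + 1, fun j => if j ≤ L then g j else c, by simp [h0], by simp, ?_⟩
    intro j hj
    rcases Nat.lt_or_ge j L with h1 | h1
    · simp only [if_pos h1.le, if_pos (Nat.succ_le_of_lt h1)]
      exact hs j h1
    · have : j = L := by omega
      subst this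
      simp only [le_refl, if_true, if_neg (Nat.not_succ_le_self j)]
      rw [hL]; exact hbc

theorem concat {α : Type} {R : α → α → Prop} (s : ℕ → α)
    (h : ∀ n, Relation.ReflTransGen R (s n) (s (n + 1))) :
    ∃ f : ℕ → α, f 0 = s 0 ∧ (∀ t, f (t + 1) = f t ∨ R (f t) (f (t + 1))) ∧
      ∀ n, ∃ t, f t = s n := by
  choose L g h0 hL hs using fun n => path_fn (h n)
  let F : ℕ → ℕ × ℕ := fun t => Nat.rec (0, 0)
    (fun _ q => if q.2 < L q.1 then (q.1, q.2 + 1) else (q.1 + 1, 0)) t
  have hF0 : F 0 = (0, 0) := rfl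
  have hFs : ∀ t, F (t + 1) = if (F t).2 < L (F t).1 then ((F t).1, (F t).2 + 1)
      else ((F t).1 + 1, 0) := fun t => rfl
  have hinv : ∀ t, (F t).2 ≤ L (F t).1 := by
    intro t
    induction t with
    | zero => rw [hF0]; exact Nat.zero_le _
    | succ t ih =>
      rw [hFs]
      split_ifs with h1
      · exact h1
      · exact Nat.zero_le _
  refine ⟨fun t => g (F t).1 (F t).2, ?_, ?_, ?_⟩
  · simp only [hF0]; exact h0 0
  · intro t
    simp only [hFs]
    split_ifs with h1
    · right; exact hs _ _ h1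
    · left
      have : (F t).2 = L (F t).1 := le_antisymm (hinv t) (not_lt.1 h1)
      simp only [h0, this, hL]
  · have key : ∀ n, ∃ t, F t = (n, 0) := by
      intro n
      induction n with
      | zero => exact ⟨0, rfl⟩
      | succ n ih =>
        obtain ⟨t, ht⟩ := ih
        have h1 : ∀ j ≤ L n, F (t + j) = (n, j) := by
          intro j
          induction j with
          | zero => intro _; exact ht
          | succ j ihj =>
            intro hj
            rw [← Nat.add_assoc, hFs, ihj (by omega)]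
            simp only
            rw [if_pos (by omega)]
        refine ⟨t + L n + 1, ?_⟩
        rw [hFs, h1 (L n) le_rfl]
        simp
    intro n
    obtain ⟨t, ht⟩ := key n
    exact ⟨t, by simp only [ht, h0]⟩

theorem mobile {n : ℕ} : IsMobile (latticeGraph (n + 1))
    (Set.range (pt (n := n))) := by
  have hgood : Good (pt (n := n)) := fun _ _ _ => Iff.rfl
  refine ⟨good_genPos hgood, ?_⟩
  obtain ⟨v, hv⟩ := exists_surjective_nat (Fin (n + 1) → ℤ)
  let φ0 : (Fin n → Bool) → Bool := fun _ => false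
  let t : ℕ → Fin (n + 1) → ℤ := fun m => Nat.casesOn m 0 fun m => v m - pt φ0
  obtain ⟨f, hf0, hf1, hf2⟩ := concat (R := Step) (fun m => Set.range (tr (pt (n := n)) (t m)))
    (fun m => tr_reach hgood _ _)
  refine ⟨f, ?_, ?_, ?_⟩
  · rw [hf0]
    congr 1
    funext φ
    simp [tr, t]
  · intro m
    rcases hf1 m with h | h
    · exact Or.inl h
    · exact Or.inr h.2
  · intro w
    obtain ⟨m, rfl⟩ := hv w
    obtain ⟨τ, hτ⟩ := hf2 (m + 1)
    refine ⟨τ, ?_⟩
    rw [hτ]
    exact ⟨φ0, by simp [tr, t]⟩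

theorem card_range {n : ℕ} : (Set.range (pt (n := n))).encard = 2 ^ (2 ^ n) := by
  have hgood : Good (pt (n := n)) := fun _ _ _ => Iff.rfl
  rw [← Set.image_univ, (good_inj hgood).encard_image, Set.encard_univ,
    ENat.card_eq_coe_fintype_card]
  simp

/-- **Mobile general position number of the integer lattices.**  For every `k ≥ 1` the largest
size of a mobile general position set of the `k`-fold Cartesian power of the two-way infinite path
is `2 ^ (2 ^ (k - 1))`. -/
theorem result (k : ℕ) (hk : 1 ≤ k) :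
    IsGreatest {m : ℕ∞ | ∃ S : Set (Fin k → ℤ), IsMobile (latticeGraph k) S ∧ S.encard = m}
      (2 ^ (2 ^ (k - 1))) := by
  obtain ⟨n, rfl⟩ : ∃ n, k = n + 1 := ⟨k - 1, by omega⟩
  rw [Nat.add_sub_cancel]
  constructor
  · exact ⟨Set.range pt, mobile, card_range⟩
  · rintro m ⟨S, hS, rfl⟩
    exact upper S hS.1

end Pool.Agent.Results.MP_903b9e_co.MobileLattice
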